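import Pool.Agent.ToricNef.Main

/-!
# Nef decompositions of `-K_X` on toric klt Fano varieties

For every toric klt Fano variety `X` of dimension `n ≥ 1` (any singularities) every nef
decomposition `-K_X ≡ ∑ a_i M_i` has total weight `∑ a_i ≤ 2 n`, and some nef decomposition has
total weight exactly `2 n` if and only if `X ≅ (ℙ¹)ⁿ`.
-/

open Pool.Agent.ToricNef

theorem Pool.Agent.Results.MP_732f67_ag.ToricCase.result :
    ∀ (n : ℕ), 1 ≤ n → ∀ (S : Finset (Fin n → ℤ)), IsFano S →
      (∀ D : NefDecomposition S, D.weight ≤ 2 * n) ∧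
      ((∃ D : NefDecomposition S, D.weight = 2 * n) ↔
        ∃ b : Module.Basis (Fin n) ℤ (Fin n → ℤ), ∀ v, v ∈ S ↔ ∃ j, v = b j ∨ v = - b j) :=
  fun n hn S hS => main n hn S hS
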